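import Pool.Agent.H933.EP.Stm
import Pool.Agent.H670.LL.Sep

/-!
# The endpoint: admissible densities and separation of a point of the spectrum (helper245)
-/

set_option autoImplicit false
set_option linter.unusedSectionVars false

open MeasureTheory Metric
open scoped Real Topology

namespace Pool.Agent.H245.EP

open Pool.Agent.H933.LL Pool.Agent.H933.EP
open Pool.Agent.H356.LL (Dens Bop isOpen_ann)
open Pool.Agent.H670.LL (dens_eq bop_comm res_mul op_mul)

theorem dom_mono {M : ℂ → ℝ} {U V : Set ℂ} (h : Dom M U) (hVU : V ⊆ U) : Dom M V := by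
  intro I ρ hI hρ
  obtain ⟨C, hC⟩ := h I ρ hI hρ
  exact ⟨C, fun g W z₀ h1 h2 h3 h4 h5 => hC g W z₀ h1 h2 (h3.trans hVU) h4 h5⟩

theorem int_of_add {X : Type} [NormedAddCommGroup X] [NormedSpace ℂ X] {T : X →L[ℂ] X}
    {h : ℂ → ℂ} {U : Set ℂ} (h2 : IntegrableOn h U)
    (h3 : IntegrableOn (fun z => ‖h z‖ * (1 + ‖resolvent T z‖)) U) :
    IntegrableOn (fun z => ‖h z‖ * ‖resolvent T z‖) U := by
  have h4 := Integrable.sub h3 (Integrable.norm h2)
  refine h4.congr (Filter.Eventually.of_forall fun z => ?_)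
  show ‖h z‖ * (1 + ‖resolvent T z‖) - ‖h z‖ = ‖h z‖ * ‖resolvent T z‖
  ring

/-- **P_adm2** from `P_berg2` -/
theorem p_adm2 (hb : P_berg2) : P_adm2 := by
  intro X _ _ _ T l r hr hl hσ hD
  have hae : ∀ᵐ z ∂(volume.restrict (ball l r)), z ∉ spectrum ℂ T := by
    have h1 : volume.restrict (ball l r) (spectrum ℂ T) = 0 := by
      rw [Measure.restrict_apply (spectrum.isClosed T).measurableSet]; exact hσ
    rw [ae_iff]
    simpa using h1
  obtain ⟨h, h1, h2, h3, h4, h5⟩ := hb (fun z => 1 + ‖resolvent T z‖) l r hr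
    ((aemeasurable_const).add (Pool.Agent.H571.LL.aesm_resolvent T _).norm.aemeasurable)
    (by
      filter_upwards [hae] with z hz1
      have h := one_le_resolvent hl hz1
      have h0 := norm_nonneg (resolvent T z)
      have h0' := norm_nonneg (z - l)
      refine ⟨by linarith, ?_⟩
      nlinarith) hD
  exact ⟨h, ⟨h1, h2, int_of_add h2 h3, h4, h5⟩⟩

/-- **P_sep2** from `P_cut2`, `P_adm2` -/
theorem p_sep2 (hcut : P_cut2) (hadm : P_adm2) : P_sep2 := by
  intro X _ _ _ T l r r₂ hr2 hr hl hσ hI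
  -- `X` is nontrivial
  have hX : Nontrivial X := by
    by_contra hcon
    rw [not_nontrivial_iff_subsingleton] at hcon
    have hs : Subsingleton (X →L[ℂ] X) := ⟨fun f g => by
      ext x
      exact Subsingleton.elim _ _⟩
    apply hl
    have : algebraMap ℂ (X →L[ℂ] X) l - T = 1 := Subsingleton.elim _ _
    change IsUnit (algebraMap ℂ (X →L[ℂ] X) l - T)
    rw [this]
    exact isUnit_one
  set r₁ := r₂ / 2 with hr1
  set r₀ := r₂ / 4 with hr0
  have hr1pos : 0 < r₁ := by rw [hr1]; positivity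
  have hr0pos : 0 < r₀ := by rw [hr0]; positivity
  have hr01 : r₀ < r₁ := by rw [hr0, hr1]; linarith
  have hr12 : r₁ < r₂ := by rw [hr1]; linarith
  -- the small disc
  have hsub0 : ball l r₀ ⊆ ball l r := ball_subset_ball (by linarith)
  have hσ0 : volume (spectrum ℂ T ∩ ball l r₀) = 0 :=
    measure_mono_null (Set.inter_subset_inter_right _ hsub0) hσ
  obtain ⟨h₁, hA⟩ := hadm X T l r₀ hr0pos hl hσ0 (dom_mono hI hsub0)
  -- the annulus
  have hsubW : ann l r₁ r₂ ⊆ ball l r := by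
    intro z hz
    rw [mem_ball_iff_norm]
    exact hz.2.trans hr
  have hae : ∀ᵐ z ∂(volume.restrict (ann l r₁ r₂)), z ∉ spectrum ℂ T := by
    rw [ae_restrict_iff' (isOpen_ann l r₁ r₂).measurableSet, ae_iff]
    refine measure_mono_null ?_ hσ
    intro z hz
    simp only [Classical.not_imp, not_not, Set.mem_ofPred_eq] at hz
    exact ⟨hz.2, hsubW hz.1⟩
  obtain ⟨h, k1, k2, k3, k4⟩ := hcut (fun z => 1 + ‖resolvent T z‖) l r₁ r₂ hr1pos hr12
    ((aemeasurable_const).add (Pool.Agent.H356.LL.aesm_resolvent T _).norm.aemeasurable)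
    (Filter.Eventually.of_forall fun z => by
      have := norm_nonneg (resolvent T z)
      linarith)
    (dom_mono hI hsubW)
  have H : Dens T l r₁ r₂ h := ⟨k1, k2, int_of_add k2 k3, k4⟩
  have hBcomm : ∀ Q : X →L[ℂ] X, Q * T = T * Q → Q * Op T l r₀ h₁ = Op T l r₀ h₁ * Q :=
    fun Q hQ => Pool.Agent.H571.LL.p_comm X T l r₀ h₁ hσ0 hA Q hQ
  refine ⟨∫ z in ann l r₁ r₂, h z • resolvent T z, Op T l r₀ h₁, H.comm, hBcomm, ?_, ?_, ?_⟩
  · intro h0
    apply Pool.Agent.H665.LL.p_sq X T l r₀ h₁ hr0pos hl hσ0 hA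
    rw [h0, mul_zero]
  · rw [← H.comm (Op T l r₀ h₁) (hBcomm T rfl).symm]
    exact op_mul hA H hσ0 hae hr01 hr12
  · intro hA1 v hv
    by_contra hcon
    rw [mem_closedBall_iff_norm, not_le] at hcon
    have hb := fun z (hz : z ∈ ann l r₁ r₂) => Pool.Agent.H356.LL.dist_out hcon hz
    have he := dens_eq H hae (sub_pos.mpr hcon) hb
    rw [H.rep_inv (sub_pos.mpr hcon) hb, Pool.Agent.H356.LL.circ_out hr1pos hr12 hcon,
      zero_smul, zero_sub, hA1] at he
    have hc := bop_comm H (sub_pos.mpr hcon) hb T rfl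
    apply hv
    change IsUnit (algebraMap ℂ (X →L[ℂ] X) v - T)
    rw [Algebra.algebraMap_eq_smul_one]
    have he1 : (v • (1 : X →L[ℂ] X) - T) * (-Bop T l r₁ r₂ h v) = 1 := by
      rw [mul_neg, he, neg_neg]
    have he3 : Bop T l r₁ r₂ h v * (v • (1 : X →L[ℂ] X) - T) =
        (v • (1 : X →L[ℂ] X) - T) * Bop T l r₁ r₂ h v := by
      rw [mul_sub, sub_mul, hc, mul_smul_comm, smul_mul_assoc, mul_one, one_mul]
    have he2 : (-Bop T l r₁ r₂ h v) * (v • (1 : X →L[ℂ] X) - T) = 1 := by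
      rw [neg_mul, he3, he, neg_neg]
    exact ⟨⟨_, _, he1, he2⟩, rfl⟩

end Pool.Agent.H245.EP
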